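import Mathlib
import Pool.Agent.Helper892.Dim5

set_option autoImplicit false

namespace Pool.Agent.Results.MP_bec8f7_co.DimFive

/-- For every `d ≥ 5` some `d`-dimensional convex body has no inscribed `d`-dimensional
parallelotope. -/
theorem result (d : ℕ) (hd : 5 ≤ d) :
    ∃ C : Set (EuclideanSpace ℝ (Fin d)), IsCompact C ∧ Convex ℝ C ∧ (interior C).Nonempty ∧
      ¬ ∃ (a : EuclideanSpace ℝ (Fin d)) (v : Fin d → EuclideanSpace ℝ (Fin d)),
        LinearIndependent ℝ v ∧ ∀ S : Finset (Fin d), a + ∑ i ∈ S, v i ∈ frontier C := by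
  obtain ⟨K, hK1, hK2⟩ := Pool.Agent.Helper892.Dim5.exists_body hd
  exact ⟨K, K.isCompact, K.convex, hK1, hK2⟩

end Pool.Agent.Results.MP_bec8f7_co.DimFive
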